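import Mathlib

set_option autoImplicit false

/-! Exponents with constant value on all finite sums, growing quickly. -/

namespace Pool.Agent.Y371.HA

open Finset

theorem one_le_of_mem_FS {a : Stream' ℕ} {m : ℕ} (hm : m ∈ Hindman.FS a) :
    (∀ n, 1 ≤ a.get n) → 1 ≤ m := by
  induction hm with
  | head' a => intro h; exact h 0
  | tail' a m _ ih => intro h; exact ih (fun n => h (n + 1))
  | cons' a m _ ih => intro h; have := h 0; have h2 := ih (fun n => h (n + 1)); omega

theorem exists_stream {S : Type*} [Finite S] (G : ℕ → S) :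
    ∃ (g : S) (b : ℕ → ℕ), (∀ i, 1 ≤ b i) ∧
      ∀ J : Finset ℕ, J.Nonempty → G (∑ i ∈ J, b i) = g := by
  have h1 : ∀ n, 1 ≤ (Stream'.const 1 : Stream' ℕ).get n := fun n => by simp [Stream'.get, Stream'.const]
  obtain ⟨c, hc, b, hb⟩ := Hindman.FS_partition_regular (Stream'.const 1 : Stream' ℕ)
    (Set.range (fun g : S => {n : ℕ | 1 ≤ n ∧ G n = g})) (Set.finite_range _) (by
      intro m hm
      exact ⟨_, ⟨G m, rfl⟩, one_le_of_mem_FS hm h1, rfl⟩)
  obtain ⟨g, rfl⟩ := hc
  refine ⟨g, fun i => b.get i, fun i => (hb (Hindman.FS.singleton b i)).1, fun J hJ => ?_⟩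
  exact (hb (Hindman.FS.finsetSum b J hJ)).2

theorem exists_exp {S : Type*} [Finite S] (G : ℕ → S) (A : ℕ) :
    ∃ (g : S) (e : ℕ → ℕ), (∀ i, 2 * ∑ l ∈ range i, e l + A * (i + 1) ≤ e i) ∧
      ∀ J : Finset ℕ, J.Nonempty → G (∑ i ∈ J, e i) = g := by
  obtain ⟨g, b, hb, hG⟩ := exists_stream G
  let s : ℕ → ℕ := fun n => Nat.rec 0 (fun i x => x + (2 * ∑ l ∈ range x, b l + A * (i + 1) + 1)) n
  have hs0 : s 0 = 0 := rfl
  have hs : ∀ i, s (i + 1) = s i + (2 * ∑ l ∈ range (s i), b l + A * (i + 1) + 1) := fun i => rfl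
  have hmono : StrictMono s := strictMono_nat_of_lt_succ (fun i => by rw [hs]; omega)
  let e : ℕ → ℕ := fun i => ∑ l ∈ Ico (s i) (s (i + 1)), b l
  have hge : ∀ i, s (i + 1) - s i ≤ e i := by
    intro i
    have : ∑ l ∈ Ico (s i) (s (i + 1)), 1 ≤ ∑ l ∈ Ico (s i) (s (i + 1)), b l :=
      Finset.sum_le_sum (fun l _ => hb l)
    simpa using this
  have hsum : ∀ i, ∑ l ∈ range i, e l = ∑ l ∈ range (s i), b l := by
    intro i
    induction i with
    | zero => simp [hs0]
    | succ i ih =>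
      rw [Finset.sum_range_succ, ih]
      exact Finset.sum_range_add_sum_Ico b (hmono.monotone (Nat.le_succ i))
  refine ⟨g, e, fun i => ?_, fun J hJ => ?_⟩
  · rw [hsum]
    have := hge i
    rw [hs] at this
    omega
  · have : ∑ i ∈ J, e i = ∑ l ∈ J.biUnion (fun i => Ico (s i) (s (i + 1))), b l := by
      rw [Finset.sum_biUnion]
      intro i _ j _ hij
      simp only [Function.onFun]
      rw [Finset.disjoint_left]
      intro x hx hy
      rw [Finset.mem_Ico] at hx hy
      rcases lt_or_gt_of_ne hij with h | h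
      · have := hmono.monotone (show i + 1 ≤ j from h)
        omega
      · have := hmono.monotone (show j + 1 ≤ i from h)
        omega
    rw [this]
    apply hG
    obtain ⟨i, hi⟩ := hJ
    refine ⟨s i, ?_⟩
    rw [Finset.mem_biUnion]
    exact ⟨i, hi, by rw [Finset.mem_Ico]; exact ⟨le_rfl, hmono (Nat.lt_succ_self i)⟩⟩

end Pool.Agent.Y371.HA
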