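import Mathlib
import Pool.Agent.Y371.HA.Exp

set_option autoImplicit false

/-! Values of block multiplicative maps at sums of powers. -/

namespace Pool.Agent.Y371.HA

open Finset

/-- `F` is block multiplicative in base `K` with gap `p`: `F (x + y) = F x * F y` if the base-`K`
digits of `x` and those of `y` are separated by at least `p` zeros. -/
def BlockMul {S : Type*} [Monoid S] (K p : ℕ) (F : ℕ → S) : Prop :=
  ∀ n x y : ℕ, 0 < x → x < K ^ n → 0 < y → K ^ (n + p) ∣ y → F (x + y) = F x * F y

/-- exponents for the map `F` -/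
structure Exps {S : Type*} [Monoid S] (K p : ℕ) (F : ℕ → S) (g : S) (e : ℕ → ℕ) : Prop where
  two : 2 ≤ K
  mul : BlockMul K p F
  big : ∀ i, 2 * ∑ l ∈ range i, e l + (p + 3) * (i + 1) ≤ e i
  val : ∀ J : Finset ℕ, J.Nonempty → F (K ^ (∑ i ∈ J, e i)) = g

/-- the length bound for numbers made of exponents with indices below `M` -/
def len (e : ℕ → ℕ) (M : ℕ) : ℕ := ∑ l ∈ range M, e l + 2 * M + 1

/-- the number with the exponents of `B` -/
def X (K : ℕ) (e : ℕ → ℕ) (B : Finset ℕ) : ℕ := ∑ i ∈ B, K ^ e i

structure Adm {S : Type*} [Monoid S] (K : ℕ) (F : ℕ → S) (g : S) (e : ℕ → ℕ) (M b N : ℕ) : Prop where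
  pos : 0 < b
  one : 1 ≤ N
  lt : b < K ^ len e M
  val : ∀ J : Finset ℕ, J.Nonempty → (∀ i ∈ J, M ≤ i) → F (K ^ (∑ i ∈ J, e i) * b) = g ^ N

variable {S : Type*} [Monoid S] {K p : ℕ} {F : ℕ → S} {g : S} {e : ℕ → ℕ}

theorem Exps.le_sum (_h : Exps K p F g e) {i t : ℕ} (hit : i < t) : e i ≤ ∑ l ∈ range t, e l :=
  Finset.single_le_sum (f := e) (fun _ _ => Nat.zero_le _) (mem_range.2 hit)

theorem Exps.strictMono (h : Exps K p F g e) : StrictMono e := by
  apply strictMono_nat_of_lt_succ
  intro i
  have h1 := h.le_sum (show i < i + 1 from Nat.lt_succ_self i)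
  have h2 := h.big (i + 1)
  have h3 : 0 < (p + 3) * (i + 1 + 1) := by positivity
  omega

theorem Exps.X_lt (h : Exps K p F g e) {B : Finset ℕ} {t : ℕ} (hB : ∀ i ∈ B, i < t) :
    X K e B < K ^ (∑ l ∈ range t, e l + 1) := by
  unfold X
  rw [← Finset.sum_image (f := fun n => K ^ n) (g := e) (fun a _ b _ hab => h.strictMono.injective hab)]
  apply Nat.geomSum_lt h.two
  intro k hk
  rw [Finset.mem_image] at hk
  obtain ⟨i, hi, rfl⟩ := hk
  have := h.le_sum (hB i hi)
  omega

theorem X_pos (hK : 2 ≤ K) {B : Finset ℕ} (hB : B.Nonempty) : 0 < X K e B := by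
  unfold X
  apply Finset.sum_pos (fun i _ => by positivity) hB

theorem len_mono {M M' : ℕ} (hM : M ≤ M') : len e M ≤ len e M' := by
  unfold len
  have := Finset.sum_le_sum_of_subset (f := e) (Finset.range_mono hM)
  omega

theorem adm_one (h : Exps K p F g e) (M : ℕ) : Adm K F g e M 1 1 where
  pos := one_pos
  one := le_rfl
  lt := Nat.one_lt_pow (by unfold len; omega) (by have := h.two; omega)
  val := fun J hJ _ => by rw [mul_one, pow_one]; exact h.val J hJ

theorem Adm.mono (h : Exps K p F g e) {M M' b N : ℕ} (hM : M ≤ M') (ha : Adm K F g e M b N) :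
    Adm K F g e M' b N where
  pos := ha.pos
  one := ha.one
  lt := lt_of_lt_of_le ha.lt (Nat.pow_le_pow_right (by have := h.two; omega) (len_mono hM))
  val := fun J hJ hi => ha.val J hJ (fun i hiJ => hM.trans (hi i hiJ))

/-- evaluation of one block -/
theorem block (h : Exps K p F g e) {M a b N : ℕ} (hb : Adm K F g e M b N) (ha : a < K ^ len e M)
    (J : Finset ℕ) (hv : S) (hav : (a = 0 ∧ hv = 1) ∨ (0 < a ∧ F (K ^ (∑ i ∈ J, e i) * a) = hv))
    (B : Finset ℕ) : (∀ i ∈ B, M ≤ i) → (∀ i ∈ B, ∀ j ∈ J, i < j) → (B.Nonempty ∨ 0 < a) →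
    F (K ^ (∑ i ∈ J, e i) * (a + X K e B * b)) = hv * g ^ (N * B.card) := by
  have hK := h.two
  induction B using Finset.induction_on_max with
  | empty =>
    intro _ _ hne
    have ha0 : 0 < a := by simpa using hne
    rcases hav with hav | hav
    · omega
    · simp [X, hav.2]
  | insert t B' hmax ih =>
    intro hBM hBJ _
    have htM : M ≤ t := hBM t (mem_insert_self t B')
    have htB : t ∉ B' := fun hc => lt_irrefl t (hmax t hc)
    have htJ : t ∉ J := fun hc => lt_irrefl t (hBJ t (mem_insert_self t B') t hc)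
    have hX : X K e (insert t B') = X K e B' + K ^ e t := by
      unfold X; rw [Finset.sum_insert htB]; ring
    set s := ∑ i ∈ J, e i with hs
    have hlast : F (K ^ s * (K ^ e t * b)) = g ^ N := by
      have h1 := hb.val (insert t J) (insert_nonempty t J) (by
        intro i hi
        rw [Finset.mem_insert] at hi
        rcases hi with rfl | hi
        · exact htM
        · exact htM.trans (hBJ t (mem_insert_self t B') i hi).le)
      rw [Finset.sum_insert htJ] at h1
      rw [← h1]
      congr 1
      rw [← hs]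
      ring
    have hcard : N * (insert t B').card = N * B'.card + N := by
      rw [Finset.card_insert_of_notMem htB]; ring
    rw [hcard, pow_add, ← mul_assoc]
    by_cases hz : B'.Nonempty ∨ 0 < a
    · have ih' := ih (fun i hi => hBM i (mem_insert_of_mem hi))
        (fun i hi => hBJ i (mem_insert_of_mem hi)) hz
      have e1 : K ^ s * (a + X K e (insert t B') * b) =
          K ^ s * (a + X K e B' * b) + K ^ s * (K ^ e t * b) := by rw [hX]; ring
      rw [e1]
      have hpos1 : 0 < a + X K e B' * b := by
        rcases hz with hz | hz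
        · have := Nat.mul_pos (X_pos (e := e) hK hz) hb.pos
          omega
        · omega
      have hlt1 : a + X K e B' * b < K ^ (∑ l ∈ range t, e l + len e M + 2) := by
        have h1 : X K e B' < K ^ (∑ l ∈ range t, e l + 1) := h.X_lt hmax
        have h2 : X K e B' * b ≤ K ^ (∑ l ∈ range t, e l + 1) * K ^ len e M :=
          Nat.mul_le_mul h1.le hb.lt.le
        rw [← pow_add] at h2
        have h3 : a < K ^ (∑ l ∈ range t, e l + 1 + len e M) :=
          lt_of_lt_of_le ha (Nat.pow_le_pow_right (by omega) (by omega))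
        have h4 : K ^ (∑ l ∈ range t, e l + len e M + 2) =
            K * K ^ (∑ l ∈ range t, e l + 1 + len e M) := by
          rw [← pow_succ']; congr 1; ring
        rw [h4]
        have h5 : 2 * K ^ (∑ l ∈ range t, e l + 1 + len e M) ≤
          K * K ^ (∑ l ∈ range t, e l + 1 + len e M) := Nat.mul_le_mul_right _ hK
        omega
      rw [h.mul (s + (∑ l ∈ range t, e l + len e M + 2)) _ _ (by positivity) ?_ ?_ ?_, ih', hlast]
      · rw [pow_add]
        exact Nat.mul_lt_mul_of_pos_left hlt1 (by positivity)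
      · have := hb.pos
        positivity
      · have hle : s + (∑ l ∈ range t, e l + len e M + 2) + p ≤ s + e t := by
          have h1 := h.big t
          have h2 : len e M ≤ len e t := len_mono htM
          unfold len at h2 ⊢
          have h3 : (p + 3) * (t + 1) = p * t + p + 3 * t + 3 := by ring
          have h4 : 0 ≤ p * t := Nat.zero_le _
          have h5 : ∑ l ∈ range M, e l + 2 * M + 1 ≤ ∑ l ∈ range t, e l + 2 * t + 1 := h2
          omega
        have h6 : K ^ s * (K ^ e t * b) = K ^ (s + e t) * b := by rw [pow_add]; ring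
        rw [h6]
        exact Dvd.dvd.mul_right (pow_dvd_pow K hle) b
    · have hz' : B' = ∅ ∧ a = 0 := by
        rw [not_or, Finset.not_nonempty_iff_eq_empty] at hz
        exact ⟨hz.1, by omega⟩
      obtain ⟨rfl, rfl⟩ := hz'
      have hv1 : hv = 1 := by
        rcases hav with hav | hav
        · exact hav.2
        · exact absurd hav.1 (lt_irrefl 0)
      rw [hX, hv1]
      simp only [X, Finset.sum_empty, zero_add, card_empty, mul_zero, pow_zero, one_mul]
      exact hlast

theorem Adm.step (h : Exps K p F g e) {M M' a b Na Nb : ℕ} (hb : Adm K F g e M b Nb)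
    (ha : (a = 0 ∧ Na = 0) ∨ Adm K F g e M a Na) (B : Finset ℕ) (hB : B.Nonempty)
    (hBM : ∀ i ∈ B, M ≤ i ∧ i < M') : Adm K F g e M' (a + X K e B * b) (Na + Nb * B.card) := by
  have hK := h.two
  have hal : a < K ^ len e M := by
    rcases ha with ha | ha
    · rw [ha.1]; positivity
    · exact ha.lt
  have hXp := X_pos (e := e) hK hB
  have hMM' : M + 1 ≤ M' := by
    obtain ⟨i, hi⟩ := hB
    have := hBM i hi
    omega
  refine ⟨?_, ?_, ?_, ?_⟩
  · have := Nat.mul_pos hXp hb.pos
    omega
  · have h1 := hb.one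
    have h2 := hB.card_pos
    have := Nat.mul_pos (show 0 < Nb by omega) h2
    omega
  · -- length
    have hmax := B.max'_mem hB
    set t := B.max' hB with ht
    have h1 : X K e B < K ^ (e t + 1) := by
      unfold X
      rw [← Finset.sum_image (f := fun n => K ^ n) (g := e)
        (fun a _ b _ hab => h.strictMono.injective hab)]
      apply Nat.geomSum_lt h.two
      intro k hk
      rw [Finset.mem_image] at hk
      obtain ⟨i, hi, rfl⟩ := hk
      have h2 : i ≤ t := Finset.le_max' B i hi
      have := h.strictMono.monotone h2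
      omega
    have h2 : X K e B * b ≤ K ^ (e t + 1) * K ^ len e M := Nat.mul_le_mul h1.le hb.lt.le
    rw [← pow_add] at h2
    have h3 : a < K ^ (e t + 1 + len e M) :=
      lt_of_lt_of_le hal (Nat.pow_le_pow_right (by omega) (by omega))
    have htM := hBM t hmax
    have h4 : e t + 1 + len e M + 1 ≤ len e M' := by
      have h5 : ∑ l ∈ range M, e l + e t ≤ ∑ l ∈ range M', e l := by
        have h6 : ∑ l ∈ insert t (range M), e l ≤ ∑ l ∈ range M', e l := by
          apply Finset.sum_le_sum_of_subset
          intro x hx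
          rw [Finset.mem_insert, Finset.mem_range] at hx
          rw [Finset.mem_range]
          omega
        rw [Finset.sum_insert (by rw [Finset.mem_range]; omega)] at h6
        omega
      unfold len
      omega
    calc a + X K e B * b < K ^ (e t + 1 + len e M) + K ^ (e t + 1 + len e M) := by omega
      _ = 2 * K ^ (e t + 1 + len e M) := by ring
      _ ≤ K * K ^ (e t + 1 + len e M) := Nat.mul_le_mul_right _ hK
      _ = K ^ (e t + 1 + len e M + 1) := by rw [pow_succ]; ring
      _ ≤ K ^ len e M' := Nat.pow_le_pow_right (by omega) h4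
  · intro J hJ hJM
    have hblock := block h hb hal J (g ^ Na) ?_ B (fun i hi => (hBM i hi).1)
      (fun i hi j hj => lt_of_lt_of_le (hBM i hi).2 (hJM j hj)) (Or.inl hB)
    · rw [hblock, pow_add]
    · rcases ha with ha | ha
      · left; exact ⟨ha.1, by rw [ha.2, pow_zero]⟩
      · right
        exact ⟨ha.pos, ha.val J hJ (fun i hi => (by omega : M ≤ M').trans (hJM i hi))⟩

/-- evaluation without shift -/
theorem final_step (h : Exps K p F g e) {M a b Na Nb : ℕ} (hb : Adm K F g e M b Nb)
    (hal : a < K ^ len e M) (ha : (a = 0 ∧ Na = 0) ∨ (0 < a ∧ F a = g ^ Na)) (B : Finset ℕ)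
    (hB : B.Nonempty) (hBM : ∀ i ∈ B, M ≤ i) :
    F (a + X K e B * b) = g ^ (Na + Nb * B.card) := by
  have := block h hb hal ∅ (g ^ Na) (by
    rcases ha with ha | ha
    · left; exact ⟨ha.1, by rw [ha.2, pow_zero]⟩
    · right; simpa using ha) B hBM (by simp) (Or.inl hB)
  simpa [pow_add] using this

end Pool.Agent.Y371.HA
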