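import Mathlib
import Pool.Agent.Y371.HA.Block

set_option autoImplicit false

/-! Blocks with small phases of constant sign pattern. -/

namespace Pool.Agent.Y371.HA

open Finset

/-- signed distance to the nearest integer -/
noncomputable def res (α : ℝ) (n : ℕ) : ℝ := n * α - round ((n : ℝ) * α)

theorem exists_block {r : ℕ} (K : ℕ) (e : ℕ → ℕ) (α : Fin r → ℝ) {ω : ℕ} (hω : 1 ≤ ω) (n : ℕ) :
    ∃ B : Finset ℕ, B.Nonempty ∧ (∀ i ∈ B, n ≤ i) ∧ ω ∣ B.card ∧
      ∀ l, |res (α l) (X K e B)| < 1 / ((n : ℝ) + 1) := by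
  classical
  let u : ℕ → ℕ := fun t => X K e (Ico n (n + ω * t))
  have hfl : ∀ (t : ℕ) (l : Fin r), ⌊Int.fract ((u t : ℝ) * α l) * ((n : ℝ) + 1)⌋₊ < n + 1 := by
    intro t l
    have h0 := Int.fract_nonneg ((u t : ℝ) * α l)
    have h1 := Int.fract_lt_one ((u t : ℝ) * α l)
    rw [Nat.floor_lt (by positivity)]
    push_cast
    have : (0 : ℝ) < (n : ℝ) + 1 := by positivity
    nlinarith
  let f : ℕ → (Fin r → Fin (n + 1)) := fun t l => ⟨_, hfl t l⟩
  obtain ⟨t, t', hne, heq⟩ := Finite.exists_ne_map_eq_of_infinite f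
  wlog hlt : t < t' generalizing t t'
  · exact this t' t (Ne.symm hne) heq.symm (by omega)
  refine ⟨Ico (n + ω * t) (n + ω * t'), ?_, ?_, ?_, ?_⟩
  · rw [Finset.nonempty_Ico]
    have := Nat.mul_lt_mul_of_pos_left hlt (show 0 < ω by omega)
    omega
  · intro i hi
    rw [Finset.mem_Ico] at hi
    omega
  · rw [Nat.card_Ico]
    refine ⟨t' - t, ?_⟩
    rw [Nat.mul_sub]
    omega
  · intro l
    have hsplit : u t + X K e (Ico (n + ω * t) (n + ω * t')) = u t' := by
      change X K e (Ico n (n + ω * t)) + X K e (Ico (n + ω * t) (n + ω * t')) =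
        X K e (Ico n (n + ω * t'))
      unfold X
      apply Finset.sum_Ico_consecutive
      · omega
      · have := Nat.mul_le_mul_left ω hlt.le
        omega
    have hfloor : ⌊Int.fract ((u t : ℝ) * α l) * ((n : ℝ) + 1)⌋₊ =
        ⌊Int.fract ((u t' : ℝ) * α l) * ((n : ℝ) + 1)⌋₊ := by
      have := congrFun heq l
      exact Fin.mk.inj_iff.1 this
    have hn : (0 : ℝ) < (n : ℝ) + 1 := by positivity
    have h0 := Int.fract_nonneg ((u t : ℝ) * α l)
    have h0' := Int.fract_nonneg ((u t' : ℝ) * α l)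
    have a1 := Nat.floor_le (a := Int.fract ((u t : ℝ) * α l) * ((n : ℝ) + 1)) (by positivity)
    have a2 := Nat.lt_floor_add_one (Int.fract ((u t : ℝ) * α l) * ((n : ℝ) + 1))
    have a3 := Nat.floor_le (a := Int.fract ((u t' : ℝ) * α l) * ((n : ℝ) + 1)) (by positivity)
    have a4 := Nat.lt_floor_add_one (Int.fract ((u t' : ℝ) * α l) * ((n : ℝ) + 1))
    rw [hfloor] at a1 a2
    have hdiff : |Int.fract ((u t' : ℝ) * α l) - Int.fract ((u t : ℝ) * α l)| < 1 / ((n : ℝ) + 1) := by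
      rw [abs_lt, ← neg_div, div_lt_iff₀ hn, lt_div_iff₀ hn, sub_mul]
      constructor <;> linarith
    refine lt_of_le_of_lt ?_ hdiff
    unfold res
    set z : ℤ := ⌊(u t' : ℝ) * α l⌋ - ⌊(u t : ℝ) * α l⌋ with hz
    have hle := round_le (((X K e (Ico (n + ω * t) (n + ω * t')) : ℕ) : ℝ) * α l) z
    refine hle.trans (le_of_eq ?_)
    congr 1
    have hc : (u t : ℝ) + ((X K e (Ico (n + ω * t) (n + ω * t')) : ℕ) : ℝ) = (u t' : ℝ) := by
      exact_mod_cast hsplit
    have e1 := Int.floor_add_fract ((u t : ℝ) * α l)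
    have e2 := Int.floor_add_fract ((u t' : ℝ) * α l)
    rw [hz]
    push_cast
    have : ((X K e (Ico (n + ω * t) (n + ω * t')) : ℕ) : ℝ) * α l = (u t' : ℝ) * α l - (u t : ℝ) * α l := by
      rw [← hc]; ring
    rw [this]
    linarith

theorem exists_pattern {r : ℕ} (K : ℕ) (e : ℕ → ℕ) (α : Fin r → ℝ) {ω : ℕ} (hω : 1 ≤ ω) :
    ∃ σ : Fin r → SignType, ∀ (M : ℕ) (ε : ℝ), 0 < ε → ∃ B : Finset ℕ, B.Nonempty ∧
      (∀ i ∈ B, M ≤ i) ∧ ω ∣ B.card ∧
      ∀ l, |res (α l) (X K e B)| < ε ∧ SignType.sign (res (α l) (X K e B)) = σ l := by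
  classical
  by_contra hcon
  push Not at hcon
  choose M ε hε hfail using hcon
  -- a common index
  have hex : ∀ σ, ∃ n : ℕ, 1 / ((n : ℝ) + 1) < ε σ := fun σ => exists_nat_one_div_lt (hε σ)
  choose nn hnn using hex
  let n : ℕ := Finset.univ.sup (fun σ => max (M σ) (nn σ))
  obtain ⟨B, hB, hBn, hdvd, hres⟩ := exists_block K e α hω n
  let σ : Fin r → SignType := fun l => SignType.sign (res (α l) (X K e B))
  have hle : max (M σ) (nn σ) ≤ n := Finset.le_sup (f := fun σ => max (M σ) (nn σ)) (Finset.mem_univ σ)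
  obtain ⟨l, hl⟩ := hfail σ B hB (fun i hi => (le_max_left _ _).trans (hle.trans (hBn i hi))) hdvd
  refine hl (lt_of_lt_of_le (hres l) (le_trans ?_ (hnn σ).le)) rfl
  have h1 : (nn σ : ℝ) ≤ n := by exact_mod_cast (le_max_right _ _).trans hle
  exact one_div_le_one_div_of_le (by positivity) (by linarith)

theorem exists_omega {S : Type*} [Monoid S] [Finite S] (g : S) :
    ∃ ω : ℕ, 1 ≤ ω ∧ ∀ N : ℕ, 1 ≤ N → g ^ (ω * N) = g ^ ω := by
  obtain ⟨a, b, hne, hab⟩ := Finite.exists_ne_map_eq_of_infinite (fun n : ℕ => g ^ n)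
  wlog hlt : a < b generalizing a b
  · exact this b a (Ne.symm hne) hab.symm (by omega)
  obtain ⟨d, rfl⟩ : ∃ d, b = a + d := ⟨b - a, by omega⟩
  have hd : 1 ≤ d := by omega
  have hab' : g ^ a = g ^ (a + d) := hab
  have h1 : ∀ n, a ≤ n → g ^ (n + d) = g ^ n := by
    intro n hn
    obtain ⟨c, rfl⟩ : ∃ c, n = a + c := ⟨n - a, by omega⟩
    rw [show a + c + d = (a + d) + c by ring, pow_add, ← hab', ← pow_add]
  have h2 : ∀ m n, a ≤ n → g ^ (n + d * m) = g ^ n := by
    intro m n hn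
    induction m with
    | zero => simp
    | succ m ih => rw [show n + d * (m + 1) = (n + d * m) + d by ring, h1 _ (by omega), ih]
  refine ⟨d * (a + 1), Nat.mul_pos hd (by omega), fun N hN => ?_⟩
  obtain ⟨m, rfl⟩ : ∃ m, N = m + 1 := ⟨N - 1, by omega⟩
  rw [show d * (a + 1) * (m + 1) = d * (a + 1) + d * ((a + 1) * m) by ring]
  exact h2 _ _ (by nlinarith)

end Pool.Agent.Y371.HA
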