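import Mathlib
import Pool.Agent.Y371.HA.Phase

set_option autoImplicit false

/-! The infinite system of sums of monomials. -/

namespace Pool.Agent.Y371.HA

open Finset

/-- the sum of the monomials of the family `𝒮` -/
def val (x : ℕ → ℕ) (𝒮 : Finset (Finset ℕ)) : ℕ := ∑ I ∈ 𝒮, ∏ i ∈ I, x i

theorem val_split (x : ℕ → ℕ) (𝒮 : Finset (Finset ℕ)) (m : ℕ) :
    val x 𝒮 = val x (𝒮.filter (fun I => m ∉ I)) +
      x m * val x ((𝒮.filter (fun I => m ∈ I)).image (fun I => I.erase m)) := by
  unfold val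
  rw [← Finset.sum_filter_add_sum_filter_not 𝒮 (fun I => m ∈ I), add_comm]
  congr 1
  rw [Finset.sum_image, Finset.mul_sum]
  · apply Finset.sum_congr rfl
    intro I hI
    rw [Finset.mem_filter] at hI
    exact (Finset.mul_prod_erase I x hI.2).symm
  · intro I hI J hJ hIJ
    simp only [Finset.coe_filter, Set.mem_ofPred_eq] at hI hJ
    rw [← Finset.insert_erase hI.2, ← Finset.insert_erase hJ.2]
    have : I.erase m = J.erase m := hIJ
    rw [this]

theorem val_pos {x : ℕ → ℕ} (hx : ∀ i, 0 < x i) {𝒮 : Finset (Finset ℕ)} (h : 𝒮.Nonempty) :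
    0 < val x 𝒮 :=
  Finset.sum_pos (fun _ _ => Finset.prod_pos (fun i _ => hx i)) h

theorem main {S : Type*} [Monoid S] [Finite S] {K p : ℕ} (hK : 2 ≤ K) {F : ℕ → S}
    (hF : BlockMul K p F) {r : ℕ} (α : Fin r → ℝ) {δ : ℝ} (hδ : 0 < δ) (q N₀ : ℕ) :
    ∃ (x : ℕ → ℕ) (s : S) (σ : Fin r → SignType), StrictMono x ∧ N₀ < x 0 ∧ (∀ i, K ^ q ∣ x i) ∧
      ∀ 𝒮 : Finset (Finset ℕ), 𝒮.Nonempty → ∅ ∉ 𝒮 → F (val x 𝒮) = s ∧
        ∀ l, ∃ (z : ℤ) (ρ : ℝ), (val x 𝒮 : ℝ) * α l = z + ρ ∧ |ρ| < δ ∧ SignType.sign ρ = σ l := by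
  classical
  obtain ⟨g, e, hbig, hval⟩ := exists_exp (fun n => F (K ^ n)) (p + 3 + q + N₀)
  have h : Exps K p F g e := by
    refine ⟨hK, hF, fun i => le_trans ?_ (hbig i), hval⟩
    have : (p + 3) * (i + 1) ≤ (p + 3 + q + N₀) * (i + 1) := Nat.mul_le_mul_right _ (by omega)
    omega
  have hge : ∀ i, q + N₀ ≤ e i := by
    intro i
    have := hbig i
    have h2 : (p + 3 + q + N₀) * 1 ≤ (p + 3 + q + N₀) * (i + 1) := Nat.mul_le_mul_left _ (by omega)
    omega
  obtain ⟨ω, hω, hgω⟩ := exists_omega g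
  obtain ⟨σ, hpat⟩ := exists_pattern K e α hω
  choose! BB hB1 hB2 hB3 hB4 using hpat
  let ep : ℕ → ℕ → ℝ := fun M m => δ / (2 ^ (m + 1) * (K : ℝ) ^ len e M)
  have hKr : (0 : ℝ) < K := by positivity
  have hep : ∀ M m, 0 < ep M m := fun M m => by positivity
  let Ms : ℕ → ℕ := fun n => Nat.rec 0 (fun m M => (BB M (ep M m)).sup id + 1) n
  have hMs : ∀ m, Ms (m + 1) = (BB (Ms m) (ep (Ms m) m)).sup id + 1 := fun m => rfl
  let Bs : ℕ → Finset ℕ := fun m => BB (Ms m) (ep (Ms m) m)
  have hBne : ∀ m, (Bs m).Nonempty := fun m => hB1 _ _ (hep _ _)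
  have hBrange : ∀ m, ∀ i ∈ Bs m, Ms m ≤ i ∧ i < Ms (m + 1) := by
    intro m i hi
    refine ⟨hB2 _ _ (hep _ _) i hi, ?_⟩
    rw [hMs]
    have : id i ≤ (BB (Ms m) (ep (Ms m) m)).sup id := Finset.le_sup (f := id) hi
    exact Nat.lt_succ_of_le this
  have hBdvd : ∀ m, ω ∣ (Bs m).card := fun m => hB3 _ _ (hep _ _)
  have hBphase : ∀ m l, |res (α l) (X K e (Bs m))| < ep (Ms m) m ∧
      SignType.sign (res (α l) (X K e (Bs m))) = σ l := fun m l => hB4 _ _ (hep _ _) l
  have hMmono : ∀ m, Ms m ≤ Ms (m + 1) := by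
    intro m
    obtain ⟨i, hi⟩ := hBne m
    have := hBrange m i hi
    omega
  let x : ℕ → ℕ := fun m => X K e (Bs m)
  have hxpos : ∀ m, 0 < x m := fun m => X_pos hK (hBne m)
  have hKx : ∀ m, ∀ i ∈ Bs m, K ^ e i ≤ x m := by
    intro m i hi
    exact Finset.single_le_sum (f := fun i => K ^ e i) (fun _ _ => Nat.zero_le _) hi
  refine ⟨x, g ^ ω, σ, ?_, ?_, ?_, ?_⟩
  · apply strictMono_nat_of_lt_succ
    intro m
    obtain ⟨i, hi⟩ := hBne (m + 1)
    have h1 : x m < K ^ (∑ l ∈ range (Ms (m + 1)), e l + 1) :=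
      h.X_lt (fun j hj => (hBrange m j hj).2)
    have h2 := hKx (m + 1) i hi
    have h3 := (hBrange (m + 1) i hi).1
    have h4 : ∑ l ∈ range (Ms (m + 1)), e l ≤ ∑ l ∈ range i, e l :=
      Finset.sum_le_sum_of_subset (Finset.range_mono h3)
    have h5 := h.big i
    have h6 : 1 ≤ (p + 3) * (i + 1) := Nat.mul_pos (by omega) (by omega)
    exact lt_of_lt_of_le h1 (le_trans (Nat.pow_le_pow_right (by omega) (by omega)) h2)
  · obtain ⟨i, hi⟩ := hBne 0
    have h2 := hKx 0 i hi
    have h3 : N₀ < 2 ^ N₀ := Nat.lt_two_pow_self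
    have h4 : 2 ^ N₀ ≤ K ^ N₀ := Nat.pow_le_pow_left hK N₀
    have h5 : K ^ N₀ ≤ K ^ e i := Nat.pow_le_pow_right (by omega) (by have := hge i; omega)
    omega
  · intro m
    apply Finset.dvd_sum
    intro i _
    exact pow_dvd_pow K (by have := hge i; omega)
  · -- main induction
    have key : ∀ (m : ℕ) (𝒮 : Finset (Finset ℕ)), (∀ I ∈ 𝒮, ∀ i ∈ I, i < m) → 𝒮.Nonempty →
        (∃ N, Adm K F g e (Ms m) (val x 𝒮) N) ∧
        (∅ ∉ 𝒮 → (∃ N, 1 ≤ N ∧ F (val x 𝒮) = g ^ (ω * N)) ∧
          ∀ l, ∃ (z : ℤ) (ρ : ℝ), (val x 𝒮 : ℝ) * α l = z + ρ ∧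
            |ρ| ≤ δ * (1 - (1 / 2) ^ m) ∧ SignType.sign ρ = σ l) := by
      intro m
      induction m with
      | zero =>
        intro 𝒮 h𝒮 hne
        have hall : ∀ I ∈ 𝒮, I = ∅ := by
          intro I hI
          rw [Finset.eq_empty_iff_forall_notMem]
          intro i hi
          exact absurd (h𝒮 I hI i hi) (Nat.not_lt_zero i)
        have h𝒮1 : 𝒮 = {∅} := by
          obtain ⟨I, hI⟩ := hne
          apply Finset.eq_singleton_iff_unique_mem.2
          exact ⟨by rw [← hall I hI]; exact hI, hall⟩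
        subst h𝒮1
        refine ⟨⟨1, ?_⟩, fun hc => absurd (Finset.mem_singleton_self ∅) hc⟩
        simp only [val, Finset.sum_singleton, Finset.prod_empty]
        exact adm_one h _
      | succ m ih =>
        intro 𝒮 h𝒮 hne
        set 𝒮0 := 𝒮.filter (fun I => m ∉ I) with h0
        set 𝒮1 := (𝒮.filter (fun I => m ∈ I)).image (fun I => I.erase m) with h1
        have hsp := val_split x 𝒮 m
        rw [← h0, ← h1] at hsp
        have hr0 : ∀ I ∈ 𝒮0, ∀ i ∈ I, i < m := by
          intro I hI i hi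
          rw [h0, Finset.mem_filter] at hI
          have := h𝒮 I hI.1 i hi
          have hne' : i ≠ m := fun hc => hI.2 (hc ▸ hi)
          omega
        have hr1 : ∀ I ∈ 𝒮1, ∀ i ∈ I, i < m := by
          intro I hI i hi
          rw [h1, Finset.mem_image] at hI
          obtain ⟨J, hJ, rfl⟩ := hI
          rw [Finset.mem_filter] at hJ
          rw [Finset.mem_erase] at hi
          have := h𝒮 J hJ.1 i hi.2
          omega
        have hpow : δ * (1 - (1 / 2) ^ (m + 1)) = δ * (1 - (1 / 2) ^ m) + δ / 2 ^ (m + 1) := by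
          rw [one_div, inv_pow, inv_pow, pow_succ]
          field_simp
          ring
        by_cases hne1 : 𝒮1.Nonempty
        · obtain ⟨⟨Nb, hb⟩, _⟩ := ih 𝒮1 hr1 hne1
          -- the part without m
          have ha : ∃ Na, (val x 𝒮0 = 0 ∧ Na = 0) ∨ Adm K F g e (Ms m) (val x 𝒮0) Na := by
            by_cases hne0 : 𝒮0.Nonempty
            · obtain ⟨⟨Na, ha⟩, _⟩ := ih 𝒮0 hr0 hne0
              exact ⟨Na, Or.inr ha⟩
            · rw [Finset.not_nonempty_iff_eq_empty] at hne0
              exact ⟨0, Or.inl ⟨by rw [hne0]; simp [val], rfl⟩⟩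
          obtain ⟨Na, ha⟩ := ha
          have hal : val x 𝒮0 < K ^ len e (Ms m) := by
            rcases ha with ha | ha
            · rw [ha.1]; positivity
            · exact ha.lt
          refine ⟨⟨Na + Nb * (Bs m).card, ?_⟩, fun hemp => ⟨?_, ?_⟩⟩
          · rw [hsp]
            exact Adm.step h hb ha (Bs m) (hBne m) (hBrange m)
          · obtain ⟨c, hc⟩ := hBdvd m
            have hcpos : 1 ≤ c := by
              have := (hBne m).card_pos
              rw [hc] at this
              exact Nat.pos_of_mul_pos_left this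
            have hFa : ∃ Na', (val x 𝒮0 = 0 ∧ ω * Na' = 0) ∨
                (0 < val x 𝒮0 ∧ F (val x 𝒮0) = g ^ (ω * Na')) := by
              by_cases hne0 : 𝒮0.Nonempty
              · have hemp0 : ∅ ∉ 𝒮0 := fun hc => hemp (Finset.mem_of_mem_filter _ hc)
                obtain ⟨N, _, hN⟩ := ((ih 𝒮0 hr0 hne0).2 hemp0).1
                exact ⟨N, Or.inr ⟨val_pos hxpos hne0, hN⟩⟩
              · rw [Finset.not_nonempty_iff_eq_empty] at hne0
                exact ⟨0, Or.inl ⟨by rw [hne0]; simp [val], by ring⟩⟩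
            obtain ⟨Na', hFa⟩ := hFa
            refine ⟨Na' + Nb * c, ?_, ?_⟩
            · have := Nat.mul_pos (show 0 < Nb by have := hb.one; omega) (show 0 < c by omega)
              omega
            · rw [hsp, final_step h hb hal hFa (Bs m) (hBne m) (fun i hi => (hBrange m i hi).1), hc]
              congr 1
              ring
          · intro l
            obtain ⟨hsmall, hsign⟩ := hBphase m l
            set θ := res (α l) (X K e (Bs m)) with hθ
            have hxθ : (x m : ℝ) * α l = round ((x m : ℝ) * α l) + θ := by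
              rw [hθ]; unfold res; change _ = _ + ((x m : ℝ) * α l - _); ring
            have hbpos : 0 < val x 𝒮1 := hb.pos
            have hbr : (0 : ℝ) < val x 𝒮1 := by exact_mod_cast hbpos
            have hblt : (val x 𝒮1 : ℝ) ≤ (K : ℝ) ^ len e (Ms m) := by exact_mod_cast hb.lt.le
            have hbθ : |(val x 𝒮1 : ℝ) * θ| ≤ δ / 2 ^ (m + 1) := by
              rw [abs_mul, abs_of_pos hbr]
              calc (val x 𝒮1 : ℝ) * |θ| ≤ (K : ℝ) ^ len e (Ms m) * ep (Ms m) m :=
                    mul_le_mul hblt hsmall.le (abs_nonneg _) (by positivity)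
                _ = δ / 2 ^ (m + 1) := by
                    change (K : ℝ) ^ len e (Ms m) * (δ / (2 ^ (m + 1) * (K : ℝ) ^ len e (Ms m))) = _
                    field_simp
            have hsb : SignType.sign ((val x 𝒮1 : ℝ) * θ) = σ l := by
              rw [sign_mul, sign_pos hbr, one_mul, hsign]
            by_cases hne0 : 𝒮0.Nonempty
            · have hemp0 : ∅ ∉ 𝒮0 := fun hc => hemp (Finset.mem_of_mem_filter _ hc)
              obtain ⟨z, ρ, hz, hρ, hs⟩ := ((ih 𝒮0 hr0 hne0).2 hemp0).2 l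
              refine ⟨z + val x 𝒮1 * round ((x m : ℝ) * α l), ρ + val x 𝒮1 * θ, ?_, ?_, ?_⟩
              · rw [hsp]
                push_cast
                linear_combination hz + (val x 𝒮1 : ℝ) * hxθ
              · rw [hpow]
                exact (abs_add_le _ _).trans (add_le_add hρ hbθ)
              · rcases hσ : σ l with _ | _ | _
                · rw [hσ] at hs hsb
                  have e1 : ρ = 0 := sign_eq_zero_iff.1 hs
                  have e2 : (val x 𝒮1 : ℝ) * θ = 0 := sign_eq_zero_iff.1 hsb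
                  rw [e1, e2, add_zero, sign_zero]
                  rfl
                · rw [hσ] at hs hsb
                  have e1 : ρ < 0 := sign_eq_neg_one_iff.1 hs
                  have e2 : (val x 𝒮1 : ℝ) * θ < 0 := sign_eq_neg_one_iff.1 hsb
                  rw [sign_neg (by linarith)]
                  rfl
                · rw [hσ] at hs hsb
                  have e1 : 0 < ρ := sign_eq_one_iff.1 hs
                  have e2 : 0 < (val x 𝒮1 : ℝ) * θ := sign_eq_one_iff.1 hsb
                  rw [sign_pos (by linarith)]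
                  rfl
            · rw [Finset.not_nonempty_iff_eq_empty] at hne0
              refine ⟨val x 𝒮1 * round ((x m : ℝ) * α l), val x 𝒮1 * θ, ?_, ?_, hsb⟩
              · rw [hsp, hne0]
                have hv0 : val x ∅ = 0 := by simp [val]
                rw [hv0]
                push_cast
                linear_combination (val x 𝒮1 : ℝ) * hxθ
              · rw [hpow]
                have h2 : (0 : ℝ) ≤ δ * (1 - (1 / 2) ^ m) := by
                  apply mul_nonneg hδ.le
                  have : ((1 : ℝ) / 2) ^ m ≤ 1 := pow_le_one₀ (by norm_num) (by norm_num)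
                  linarith
                linarith
        · rw [Finset.not_nonempty_iff_eq_empty] at hne1
          have hS : 𝒮 = 𝒮0 := by
            rw [h0]
            symm
            rw [Finset.filter_eq_self]
            intro I hI hm
            have : I.erase m ∈ 𝒮1 := by
              rw [h1, Finset.mem_image]
              exact ⟨I, Finset.mem_filter.2 ⟨hI, hm⟩, rfl⟩
            rw [hne1] at this
            exact absurd this (Finset.notMem_empty _)
          rw [← hS] at hr0
          obtain ⟨⟨N, hN⟩, h2⟩ := ih 𝒮 hr0 hne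
          refine ⟨⟨N, hN.mono h (hMmono m)⟩, fun hemp => ?_⟩
          obtain ⟨h3, h4⟩ := h2 hemp
          refine ⟨h3, fun l => ?_⟩
          obtain ⟨z, ρ, hz, hρ, hs⟩ := h4 l
          refine ⟨z, ρ, hz, hρ.trans ?_, hs⟩
          rw [hpow]
          have : 0 < δ / 2 ^ (m + 1) := by positivity
          linarith
    intro 𝒮 hne hemp
    obtain ⟨m, hm⟩ : ∃ m, ∀ I ∈ 𝒮, ∀ i ∈ I, i < m := by
      refine ⟨(𝒮.biUnion id).sup id + 1, fun I hI i hi => ?_⟩
      have : id i ≤ (𝒮.biUnion id).sup id :=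
        Finset.le_sup (f := id) (Finset.mem_biUnion.2 ⟨I, hI, hi⟩)
      exact Nat.lt_succ_of_le this
    obtain ⟨_, h2⟩ := key m 𝒮 hm hne
    obtain ⟨⟨N, hN1, hN⟩, h4⟩ := h2 hemp
    refine ⟨by rw [hN, hgω N hN1], fun l => ?_⟩
    obtain ⟨z, ρ, hz, hρ, hs⟩ := h4 l
    refine ⟨z, ρ, hz, lt_of_le_of_lt hρ ?_, hs⟩
    have : (0 : ℝ) < (1 / 2) ^ m := by positivity
    nlinarith

end Pool.Agent.Y371.HA
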