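import Mathlib
import Pool.Agent.Y371.HA.Main
import Pool.Agent.H672R2.Auto.Hat

set_option autoImplicit false

/-! Interval codings and automatic sequences. -/

namespace Pool.Agent.Y371.HA

open Finset

/-- the fractional parts of `m α` and `n α` have the same position with respect to the
breakpoints in `D` -/
def SameArc (α : ℝ) (D : Finset ℝ) (m n : ℕ) : Prop :=
  ∀ b ∈ D, (Int.fract ((m : ℝ) * α) < b ↔ Int.fract ((n : ℝ) * α) < b) ∧
    (Int.fract ((m : ℝ) * α) = b ↔ Int.fract ((n : ℝ) * α) = b)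

theorem exists_small (T : Finset ℝ) : ∃ δ : ℝ, 0 < δ ∧ ∀ t ∈ T, 0 < t → δ ≤ t := by
  induction T using Finset.induction_on with
  | empty => exact ⟨1, one_pos, by simp⟩
  | insert a T _ ih =>
    obtain ⟨δ, hδ, h⟩ := ih
    by_cases ha : 0 < a
    · refine ⟨min δ a, lt_min hδ ha, fun t ht ht0 => ?_⟩
      rw [Finset.mem_insert] at ht
      rcases ht with rfl | ht
      · exact min_le_right _ _
      · exact (min_le_left _ _).trans (h t ht ht0)
    · refine ⟨δ, hδ, fun t ht ht0 => ?_⟩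
      rw [Finset.mem_insert] at ht
      rcases ht with rfl | ht
      · exact absurd ht0 ha
      · exact h t ht ht0

theorem exists_delta {r : ℕ} (D : Fin r → Finset ℝ) : ∃ δ : ℝ, 0 < δ ∧ δ ≤ 1 / 2 ∧
    ∀ l, ∀ b ∈ D l, (b ≠ 0 → δ ≤ |b|) ∧ (b ≠ 1 → δ ≤ |b - 1|) := by
  classical
  obtain ⟨δ, hδ, h⟩ := exists_small ((univ.biUnion D).image (fun b => |b|) ∪
    (univ.biUnion D).image (fun b => |b - 1|))
  refine ⟨min δ (1 / 2), lt_min hδ (by norm_num), min_le_right _ _, fun l b hb => ⟨fun h0 => ?_, fun h1 => ?_⟩⟩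
  · refine (min_le_left _ _).trans (h _ ?_ (abs_pos.2 h0))
    rw [Finset.mem_union]; left
    rw [Finset.mem_image]
    exact ⟨b, Finset.mem_biUnion.2 ⟨l, mem_univ _, hb⟩, rfl⟩
  · refine (min_le_left _ _).trans (h _ ?_ (abs_pos.2 (sub_ne_zero.2 h1)))
    rw [Finset.mem_union]; right
    rw [Finset.mem_image]
    exact ⟨b, Finset.mem_biUnion.2 ⟨l, mem_univ _, hb⟩, rfl⟩

theorem fract_of_nonneg {t : ℝ} {z : ℤ} {ρ : ℝ} (h : t = z + ρ) (h0 : 0 ≤ ρ) (h1 : ρ < 1) :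
    Int.fract t = ρ := by
  rw [Int.fract_eq_iff]
  exact ⟨h0, h1, z, by rw [h]; ring⟩

theorem fract_of_neg {t : ℝ} {z : ℤ} {ρ : ℝ} (h : t = z + ρ) (h0 : ρ < 0) (h1 : -1 < ρ) :
    Int.fract t = 1 + ρ := by
  rw [Int.fract_eq_iff]
  refine ⟨by linarith, by linarith, z - 1, ?_⟩
  push_cast
  rw [h]; ring

theorem sameArc_of {α : ℝ} {D : Finset ℝ} {δ : ℝ} (hδ2 : δ ≤ 1 / 2)
    (hD : ∀ b ∈ D, (b ≠ 0 → δ ≤ |b|) ∧ (b ≠ 1 → δ ≤ |b - 1|)) {m n : ℕ} {σ : SignType}
    (hm : ∃ (z : ℤ) (ρ : ℝ), (m : ℝ) * α = z + ρ ∧ |ρ| < δ ∧ SignType.sign ρ = σ)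
    (hn : ∃ (z : ℤ) (ρ : ℝ), (n : ℝ) * α = z + ρ ∧ |ρ| < δ ∧ SignType.sign ρ = σ) :
    SameArc α D m n := by
  obtain ⟨z, ρ, hz, hρ, hs⟩ := hm
  obtain ⟨z', ρ', hz', hρ', hs'⟩ := hn
  rw [abs_lt] at hρ hρ'
  intro b hb
  obtain ⟨hb0, hb1⟩ := hD b hb
  rcases σ with _ | _ | _
  · have e1 : ρ = 0 := sign_eq_zero_iff.1 hs
    have e2 : ρ' = 0 := sign_eq_zero_iff.1 hs'
    rw [fract_of_nonneg hz (by linarith) (by linarith), fract_of_nonneg hz' (by linarith) (by linarith),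
      e1, e2]
    exact ⟨Iff.rfl, Iff.rfl⟩
  · have e1 : ρ < 0 := sign_eq_neg_one_iff.1 hs
    have e2 : ρ' < 0 := sign_eq_neg_one_iff.1 hs'
    rw [fract_of_neg hz e1 (by linarith), fract_of_neg hz' e2 (by linarith)]
    rcases lt_trichotomy b 1 with h | h | h
    · have h3 := hb1 h.ne
      rw [abs_of_neg (by linarith)] at h3
      constructor <;> constructor <;> intro h4 <;> linarith
    · subst h
      constructor <;> constructor <;> intro h4 <;> linarith
    · constructor <;> constructor <;> intro h4 <;> linarith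
  · have e1 : 0 < ρ := sign_eq_one_iff.1 hs
    have e2 : 0 < ρ' := sign_eq_one_iff.1 hs'
    rw [fract_of_nonneg hz e1.le (by linarith), fract_of_nonneg hz' e2.le (by linarith)]
    rcases lt_trichotomy b 0 with h | h | h
    · constructor <;> constructor <;> intro h4 <;> linarith
    · subst h
      constructor <;> constructor <;> intro h4 <;> linarith
    · have h3 := hb0 h.ne'
      rw [abs_of_pos h] at h3
      constructor <;> constructor <;> intro h4 <;> linarith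

/-- the conclusion -/
def System {κ : Type*} (c : ℕ → κ) (N : ℕ) : Prop :=
  ∃ x : ℕ → ℕ, StrictMono x ∧ N < x 0 ∧ ∀ 𝒮 : Finset (Finset ℕ), 𝒮.Nonempty → ∅ ∉ 𝒮 →
    c (∑ I ∈ 𝒮, ∏ i ∈ I, x i) = c (x 0)

theorem system_of_block {κ : Type*} {c : ℕ → κ} {r : ℕ} {α : Fin r → ℝ} {D : Fin r → Finset ℝ}
    {S : Type*} [Monoid S] [Finite S] {K p q : ℕ} {F : ℕ → S} (hK : 2 ≤ K) (hF : BlockMul K p F)
    (hc : ∀ m n : ℕ, K ^ q ∣ m → K ^ q ∣ n → F m = F n → (∀ l, SameArc (α l) (D l) m n) → c m = c n)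
    (N : ℕ) : System c N := by
  obtain ⟨δ, hδ, hδ2, hD⟩ := exists_delta D
  obtain ⟨x, s, σ, hx, hN, hdvd, hmain⟩ := main hK hF α hδ q N
  refine ⟨x, hx, hN, fun 𝒮 h1 h2 => ?_⟩
  have hd : K ^ q ∣ ∑ I ∈ 𝒮, ∏ i ∈ I, x i := by
    apply Finset.dvd_sum
    intro I hI
    have hIne : I.Nonempty := by
      rw [Finset.nonempty_iff_ne_empty]
      rintro rfl
      exact h2 hI
    obtain ⟨i, hi⟩ := hIne
    exact (hdvd i).trans (Finset.dvd_prod_of_mem x hi)
  have hx0 : val x {{0}} = x 0 := by simp [val]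
  obtain ⟨a1, a2⟩ := hmain 𝒮 h1 h2
  obtain ⟨b1, b2⟩ := hmain {{0}} (by simp) (by simp)
  rw [hx0] at b1 b2
  exact hc _ _ hd (hdvd 0) (a1.trans b1.symm) (fun l => sameArc_of hδ2 (hD l) (a2 l) (b2 l))

open Pool.Agent.H672R2.Auto in
theorem system_of_automatic {κ : Type*} {A : Type} {c : ℕ → κ} {r : ℕ} {α : Fin r → ℝ}
    {D : Fin r → Finset ℝ} {k : ℕ} (hk : 2 ≤ k) {a : ℕ → A} (ha : IsAutomatic k a)
    (hc : ∀ m n : ℕ, a m = a n → (∀ l, SameArc (α l) (D l) m n) → c m = c n)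
    (N : ℕ) : System c N := by
  obtain ⟨M, hM⟩ := exists_mach hk ha
  obtain ⟨p, hp, hidem⟩ := M.exists_per hk
  have hper : M.IsPer p := ⟨hp, hk, hidem⟩
  have : Finite M.Q := M.fin
  have : Finite (Function.End M.Q) := inferInstanceAs (Finite (M.Q → M.Q))
  have : Finite (Function.End M.Q)ᵐᵒᵖ :=
    Finite.of_injective MulOpposite.unop MulOpposite.unop_injective
  let act : ℕ → Function.End M.Q := fun n => M.hat p n
  let F : ℕ → (Function.End M.Q)ᵐᵒᵖ := fun n => MulOpposite.op (act n)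
  have hK : 2 ≤ k ^ p := by
    calc 2 ≤ k := hk
      _ = k ^ 1 := (pow_one k).symm
      _ ≤ k ^ p := Nat.pow_le_pow_right (by omega) hp
  have hF : BlockMul (k ^ p) 1 F := by
    intro n x y _ hxn _ hy
    obtain ⟨b, rfl⟩ := hy
    rw [← pow_mul] at hxn ⊢
    have hact : act (x + k ^ (p * (n + 1)) * b) = act (k ^ (p * (n + 1)) * b) * act x := by
      apply funext
      intro s
      change M.hat p (x + k ^ (p * (n + 1)) * b) s = M.hat p (k ^ (p * (n + 1)) * b) (M.hat p x s)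
      rw [Mach.hat_add hper hxn (Nat.lt_succ_self n)]
      have h0 := Mach.hat_add hper (x := 0) (i := n + 1) (j := n) (by positivity)
        (Nat.lt_succ_self n) b (M.hat p x s)
      rw [zero_add] at h0
      rw [h0, Mach.hat_zero hper, Mach.hat_E hper]
    change MulOpposite.op (act _) = MulOpposite.op (act _) * MulOpposite.op (act _)
    rw [hact, MulOpposite.op_mul]
  refine system_of_block (q := 1) hK hF (fun m n hm hn hmn harc => hc m n ?_ harc) N
  rw [pow_one] at hm hn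
  rw [← Mach.out_hat hper hM hm, ← Mach.out_hat hper hM hn]
  have h1 : act m = act n := MulOpposite.op_injective hmn
  have h2 : M.hat p m M.q0 = M.hat p n M.q0 := congrFun h1 M.q0
  rw [h2]

end Pool.Agent.Y371.HA
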